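import Pool.Agent.H363.DT.Fin

/-!
MP_75608d_al.  Random permutations together with a subgroup of `A_n` which contains many double
transpositions.

For every `δ > 0` there is `k₀` such that for every `k ≥ k₀` there is `c > 0` with: with probability
tending to `1` as `n → ∞`, `k` independent uniform elements `x` of `A_n` have the following property
for ALL subgroups `L` of `A_n` which contain at least `n^{2+δ}` products of two disjoint
transpositions (`L` may depend on `x`).

1. `x` together with any `l`-tuple of elements of `L` whose spectral gap in `L` is `ε` has spectral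
   gap at least `c min(ε, 1/l)` in `A_n`.
2. Every function on `A_n` which is invariant under `L` and has mean zero satisfies the gap
   inequality of the walk of `x` with the constant `c`.  So the walk which alternates uniform random
   elements of `L` and steps of `x` has a uniform spectral gap on `A_n`.
3. In particular this holds for the even permutations which preserve a colouring of the points with
   at least `n^{1+δ}` monochromatic pairs, for instance for a partition in blocks of size `n^δ`.

Proof.  The levels `≤ n^{1-δ/8}` have a constant gap (starting result `GapAllTuples` of this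
problem; the rest of the proof is deterministic).  For a high level the library (`LocalExpander`)
gives a balanced character `χ` of the group `T_J` of even products of `R` disjoint transpositions;
the norm of the `χ`-component of a vector is an almost constant function of `J` if the vector is
almost invariant under `x`.  Let the vector be invariant under `L`.  The relation `s t ∈ L` is an
equivalence relation on the set of all transpositions, and the component vanishes if a
transposition of `J` of the first kind and one of the second kind are equivalent.  New here: a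
second moment argument which shows that this happens for half of all `J`, either through one large
class of transpositions or through many small classes.
-/

namespace Pool.Agent.Results.MP_75608d_al.LargeSubgroups
open RC14 Finset Filter Topology

/-- `g` is the product of two disjoint transpositions -/
def IsDouble {n : ℕ} (g : Equiv.Perm (Fin n)) : Prop :=
  ∃ a b c d : Fin n, [a, b, c, d].Nodup ∧ g = Equiv.swap a b * Equiv.swap c d

/-- the number of products of two disjoint transpositions in `L` -/
noncomputable def doubles {n : ℕ} (L : Subgroup (Alt n)) : ℕ :=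
  Nat.card {g : Alt n // g ∈ L ∧ IsDouble (g : Equiv.Perm (Fin n))}

/-- the number of ordered pairs of distinct points of the same colour -/
noncomputable def mono {n : ℕ} (col : Fin n → ℕ) : ℕ :=
  Nat.card {p : Fin n × Fin n // p.1 ≠ p.2 ∧ col p.1 = col p.2}

/-- the three properties of `x` -/
def Good {n k : ℕ} (δ c : ℝ) (x : Fin k → Alt n) : Prop :=
  -- together with an expanding tuple of a subgroup with at least `n^{2+δ}` double transpositions
  (∀ (L : Subgroup (Alt n)) [Fintype L], (n : ℝ) ^ (2 + δ) ≤ doubles L →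
    ∀ (l : ℕ), 1 ≤ l → ∀ (s : Fin l → L) (ε : ℝ), 0 < ε → Expanding ε s →
      Expanding (c * min ε (1 / (l : ℝ))) (Fin.append x fun i => (s i : Alt n))) ∧
  -- functions which are invariant under such a subgroup
  (∀ L : Subgroup (Alt n), (n : ℝ) ^ (2 + δ) ≤ doubles L →
    ∀ f : Alt n → ℝ, ∑ g, f g = 0 → (∀ g, ∀ h ∈ L, f (g * h) = f g) →
      ∑ g, f g * walk x f g ≤ (1 - c) * ∑ g, f g ^ 2) ∧
  -- functions which are invariant under the even permutations preserving a colouring with at
  -- least `n^{1+δ}` monochromatic pairs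
  (∀ col : Fin n → ℕ, (n : ℝ) ^ (1 + δ) ≤ mono col →
    ∀ f : Alt n → ℝ, ∑ g, f g = 0 →
      (∀ g h : Alt n, (∀ i, col ((h : Equiv.Perm (Fin n)) i) = col i) → f (g * h) = f g) →
      ∑ g, f g * walk x f g ≤ (1 - c) * ∑ g, f g ^ 2)

/-- the core property implies the three properties -/
lemma good_of_core {k : ℕ} (hk : 1 ≤ k) (δ c : ℝ) (hδ : 0 < δ) (hc : 0 < c) :
    ∀ᶠ n : ℕ in atTop, ∀ x : Fin k → Alt n, H363.DT.Core δ c x → Good δ (c / k) x := by
  have t2 : Tendsto (fun n : ℕ => (n : ℝ)) atTop atTop := tendsto_natCast_atTop_atTop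
  have h1 : ∀ᶠ n : ℕ in atTop, 8 ≤ (n : ℝ) ^ δ :=
    ((tendsto_rpow_atTop hδ).comp t2).eventually_ge_atTop 8
  filter_upwards [h1, eventually_ge_atTop 1] with n h1 hn x hx
  have hk' : (1 : ℝ) ≤ k := by exact_mod_cast hk
  have hnp : (0 : ℝ) < n := by exact_mod_cast hn
  refine ⟨fun L _ hL l hl s ε hε hs => ?_, fun L hL f hf hinv => ?_, fun col hcol f hf hinv => ?_⟩
  · have hL' : (n : ℝ) ^ (2 + δ) ≤ H363.DT.n2 (H363.DT.up L) :=
      hL.trans (by exact_mod_cast H363.DT.doubles_le L)
    refine K1H7.LE.expanding_mono _ _ ?_ _ (hx L hL' l hl s ε hε hs)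
    have e1 : 0 ≤ min ε (1 / (l : ℝ)) := by positivity
    apply mul_le_mul_of_nonneg_right _ e1
    exact div_le_self hc.le hk'
  · have hL' : (n : ℝ) ^ (2 + δ) ≤ H363.DT.n2 (H363.DT.up L) :=
      hL.trans (by exact_mod_cast H363.DT.doubles_le L)
    exact H363.DT.core_inv hk δ c hc x hx L hL' f hf (fun h hh g => hinv g h hh)
  · have e1 : (8 : ℝ) * n ≤ mono col := by
      refine le_trans ?_ hcol
      rw [Real.rpow_add hnp, Real.rpow_one]
      nlinarith
    have e2 : 8 * n ≤ mono col := by exact_mod_cast e1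
    have e3 := H363.DT.mono_n2 col e2
    have e4 : (mono col : ℝ) * mono col ≤ 2 * H363.DT.n2 (H363.DT.up (H363.DT.stab col)) := by
      exact_mod_cast e3
    have hL' : (n : ℝ) ^ (2 + δ) ≤ H363.DT.n2 (H363.DT.up (H363.DT.stab col)) := by
      have e5 : (n : ℝ) ^ (1 + δ) * (n : ℝ) ^ (1 + δ) = (n : ℝ) ^ (2 + δ) * (n : ℝ) ^ δ := by
        rw [← Real.rpow_add hnp, ← Real.rpow_add hnp]
        congr 1; ring
      have e6 : (n : ℝ) ^ (1 + δ) * (n : ℝ) ^ (1 + δ) ≤ (mono col : ℝ) * mono col :=
        mul_le_mul hcol hcol (by positivity) (by positivity)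
      have e7 : (0 : ℝ) ≤ (n : ℝ) ^ (2 + δ) := by positivity
      nlinarith
    exact H363.DT.core_inv hk δ c hc x hx _ hL' f hf (fun h hh g => hinv g h hh)

/-- from the complement to the limit -/
lemma to_lim {k : ℕ} (P : ∀ n : ℕ, (Fin k → Alt n) → Prop)
    (key : ∀ ε0 : ℝ, 0 < ε0 → ∀ᶠ n : ℕ in atTop, (Nat.card {x : Fin k → Alt n //
      ¬ P n x} : ℝ) ≤ ε0 * (Fintype.card (Alt n) : ℝ) ^ k) :
    Tendsto (fun n : ℕ => (Nat.card {x : Fin k → Alt n // P n x} : ℝ) /
      (Fintype.card (Alt n) : ℝ) ^ k) atTop (𝓝 1) := by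
  have hpos : ∀ n : ℕ, (0 : ℝ) < (Fintype.card (Alt n) : ℝ) := fun n => by
    exact_mod_cast Fintype.card_pos
  refine tendsto_order.mpr ⟨fun b hb => ?_, fun b hb => ?_⟩
  · filter_upwards [key ((1 - b) / 2) (by linarith)] with n hn
    have hA := hpos n
    rw [lt_div_iff₀ (by positivity), RC14.card_compl, Fintype.card_fun, Fintype.card_fin]
    push_cast
    have hp : (0 : ℝ) < (Fintype.card (Alt n) : ℝ) ^ k := by positivity
    nlinarith
  · refine Eventually.of_forall fun n => lt_of_le_of_lt ?_ hb
    have hA := hpos n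
    rw [div_le_one (by positivity), RC14.card_compl, Fintype.card_fun, Fintype.card_fin]
    push_cast
    linarith [Nat.cast_nonneg (α := ℝ) (Nat.card {x : Fin k → Alt n // ¬ P n x})]

theorem result (δ : ℝ) (hδ : 0 < δ) : ∃ k₀ : ℕ, ∀ k ≥ k₀, ∃ c : ℝ, 0 < c ∧
    Tendsto (fun n : ℕ => (Nat.card {x : Fin k → Alt n // Good δ c x} : ℝ) /
      (Fintype.card (Alt n) : ℝ) ^ k) atTop (𝓝 1) := by
  obtain ⟨δ', hδ', h1, h2⟩ : ∃ δ' : ℝ, 0 < δ' ∧ δ' ≤ 1 ∧ δ' ≤ δ :=
    ⟨min δ 1, lt_min hδ (by norm_num), min_le_right _ _, min_le_left _ _⟩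
  obtain ⟨k0, hk0⟩ := TE852.GAPE (1 - δ' / 8) (TE852.TEMAIN (1 - δ' / 8) (by linarith))
  refine ⟨k0 + 1, fun k hk => ?_⟩
  obtain ⟨c, hc, B, hB, hgap⟩ := hk0 k (by omega)
  have hk1 : 1 ≤ k := by omega
  have hk' : (1 : ℝ) ≤ k := by exact_mod_cast hk1
  have hcf : 0 < K1H7.LE.cfin c k := K1H7.LE.cfin_pos _ hc k
  refine ⟨K1H7.LE.cfin c k / k, by positivity, ?_⟩
  refine to_lim (fun n x => Good δ (K1H7.LE.cfin c k / k) x) fun ε0 hε0 => ?_
  have t2 : Tendsto (fun n : ℕ => (n : ℝ)) atTop atTop := tendsto_natCast_atTop_atTop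
  filter_upwards [hgap, H363.DT.core_det δ' hδ' h1 k hk1 c hc,
    good_of_core hk1 δ' _ hδ' hcf, t2.eventually_ge_atTop (B / ε0),
    t2.eventually_ge_atTop 1] with n hgap hdet hgood hB2 hn
  have hnp : (0 : ℝ) < n := by linarith
  have h3 := RC14.card_mono (fun x : Fin k → Alt n => ¬ Good δ (K1H7.LE.cfin c k / k) x)
    (fun x => ¬ Good1 n (TE852.Rr (1 - δ' / 8) n) c x) (fun x hx hg => hx (by
      obtain ⟨a1, a2, a3⟩ := hgood x (hdet x hg)
      have e2 : (n : ℝ) ^ (2 + δ') ≤ (n : ℝ) ^ (2 + δ) :=
        Real.rpow_le_rpow_of_exponent_le hn (by linarith)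
      have e3 : (n : ℝ) ^ (1 + δ') ≤ (n : ℝ) ^ (1 + δ) :=
        Real.rpow_le_rpow_of_exponent_le hn (by linarith)
      exact ⟨fun L _ hL => a1 L (e2.trans hL), fun L hL => a2 L (e2.trans hL),
        fun col hcol => a3 col (e3.trans hcol)⟩))
  calc _ ≤ (Nat.card {x : Fin k → Alt n // ¬ Good1 n (TE852.Rr (1 - δ' / 8) n) c x} : ℝ) := by
        exact_mod_cast h3
    _ ≤ B / (n : ℝ) * (Fintype.card (Alt n) : ℝ) ^ k := hgap
    _ ≤ _ := by
        apply mul_le_mul_of_nonneg_right _ (by positivity)
        rw [div_le_iff₀ hnp]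
        rw [div_le_iff₀ hε0] at hB2
        linarith

end Pool.Agent.Results.MP_75608d_al.LargeSubgroups
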